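import Pool.Agent.Q190.TC.Main

/-!
# The integral operator with kernel `{u/y}/(u/y)` on `L²([0,1])` is not of trace class
-/

set_option autoImplicit false

open MeasureTheory Set Filter

namespace Pool.Agent.Results.MP_5a0ad8_an.NotTraceClass

noncomputable section

section general

variable {H : Type} [NormedAddCommGroup H] [InnerProductSpace ℂ H] [CompleteSpace H]

/-- The `(n+1)`-st singular number `s_{n+1}(A)`, as an approximation number: the distance in
operator norm from `A` to the operators of rank at most `n`. -/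
def singularNumber (A : H →L[ℂ] H) (n : ℕ) : ℝ :=
  sInf {r : ℝ | ∃ F : H →L[ℂ] H, FiniteDimensional ℂ F.toLinearMap.range ∧
    Module.finrank ℂ F.toLinearMap.range ≤ n ∧ r = ‖A - F‖}

/-- `s` is the sequence of eigenvalues of `(A*A)^{1/2}`, in decreasing order and counted with
multiplicity: there is an orthonormal sequence `e` with `A*A e_n = s_n² e_n` such that `A` vanishes
on the orthogonal complement of the `e_n`. -/
def IsSingularValueSequence (A : H →L[ℂ] H) (s : ℕ → ℝ) : Prop :=
  Antitone s ∧ (∀ n, 0 ≤ s n) ∧ ∃ e : ℕ → H, Orthonormal ℂ e ∧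
    (∀ n, (ContinuousLinearMap.adjoint A) (A (e n)) = ((s n : ℂ) ^ 2) • e n) ∧
    ∀ x, (∀ n, inner ℂ (e n) x = 0) → A x = 0

/-- The singular values of `A` are bounded below by `1/(24(n+2))`, `n = 0, 1, …`, and their sum
diverges, whether they are read as approximation numbers or as the eigenvalues of
`(A*A)^{1/2}`; in particular `A` is not of trace class. -/
def SingularValuesDiverge (A : H →L[ℂ] H) : Prop :=
  (∀ n : ℕ, 1 / (24 * ((n : ℝ) + 2)) ≤ singularNumber A n) ∧
  ¬ Summable (singularNumber A) ∧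
  ∀ s : ℕ → ℝ, IsSingularValueSequence A s →
    (∀ n : ℕ, 1 / (24 * ((n : ℝ) + 2)) ≤ s n) ∧ ¬ Summable s

end general

/-- Lebesgue measure on `[0,1]`. -/
abbrev lebesgue : Measure ℝ := (volume : Measure ℝ).restrict (Icc 0 1)

/-- The complex Hilbert space `L²([0,1])` for Lebesgue measure. -/
abbrev L2unit : Type := Lp ℂ 2 lebesgue

/-- The kernel `K(y,u) = {u/y}/(u/y)`, where `{x}` is the fractional part. -/
def kernel (y u : ℝ) : ℝ := Int.fract (u / y) / (u / y)

/-- `A` is the integral operator `T` of the problem: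
`(A h)(y) = ∫_0^1 K(y,u) h(u) du` for almost every `y ∈ [0,1]`, for every `h ∈ L²([0,1])`. -/
def IsOperatorT (A : L2unit →L[ℂ] L2unit) : Prop :=
  ∀ h : L2unit, ∀ᵐ y ∂lebesgue, A h y = ∫ u, (kernel y u : ℂ) * h u ∂lebesgue

/-- The operator `T` exists, and it is not of trace class: its singular values satisfy
`s_{n+1}(T) ≥ 1/(24(n+2))`, hence `∑ s_n(T) = ∞`. -/
theorem result :
    (∃ A : L2unit →L[ℂ] L2unit, IsOperatorT A) ∧
    ∀ A : L2unit →L[ℂ] L2unit, IsOperatorT A → SingularValuesDiverge A := by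
  refine ⟨⟨Pool.Agent.Q190.TC.T, fun h => Pool.Agent.Q190.TC.T_spec h⟩, fun A hA => ?_⟩
  have hAT : A = Pool.Agent.Q190.TC.T := by
    apply ContinuousLinearMap.ext
    intro h
    apply Lp.ext
    filter_upwards [hA h, Pool.Agent.Q190.TC.T_spec h] with y h1 h2
    rw [h1, h2]
    rfl
  subst hAT
  have h1 : ∀ n : ℕ, 1 / (24 * ((n : ℝ) + 2)) ≤ singularNumber Pool.Agent.Q190.TC.T n := by
    intro n
    apply le_csInf
    · refine ⟨_, 0, ?_, ?_, rfl⟩
      · have : (0 : L2unit →L[ℂ] L2unit).toLinearMap.range = ⊥ := LinearMap.range_zero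
        rw [this]; infer_instance
      · have : (0 : L2unit →L[ℂ] L2unit).toLinearMap.range = ⊥ := LinearMap.range_zero
        rw [this]; simp
    · rintro r ⟨F, hF1, hF2, rfl⟩
      exact Pool.Agent.Q190.TC.approx_lower n F hF2
  refine ⟨h1, Pool.Agent.Q190.TC.not_summable_of_lower _ h1, ?_⟩
  rintro s ⟨hs, hs0, e, he, hE, hk⟩
  have h2 : ∀ n : ℕ, 1 / (24 * ((n : ℝ) + 2)) ≤ s n := fun n =>
    Pool.Agent.Q190.TC.schmidt_lower s e hs hs0 he hE hk n
  exact ⟨h2, Pool.Agent.Q190.TC.not_summable_of_lower _ h2⟩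

end

end Pool.Agent.Results.MP_5a0ad8_an.NotTraceClass
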